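import Mathlib

/-!
The logarithmic derivative identity for the L-function of a multiplicative function on monic
polynomials over a prime field.
-/

open Polynomial Finset IntermediateField Module

namespace Pool.Agent.Shared.Weil

section
variable (K : Type) {L : Type} [Field K] [Field L] [Algebra K L] [FiniteDimensional K L]

/-- The characteristic polynomial of an element of a finite extension. -/
noncomputable def cp (x : L) : K[X] := minpoly K x ^ finrank K⟮x⟯ L

lemma deg_mul_finrank (x : L) : (minpoly K x).natDegree * finrank K⟮x⟯ L = finrank K L := by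
  rw [← adjoin.finrank (.of_finite K x), finrank_mul_finrank]

lemma cp_monic (x : L) : (cp K x).Monic := (minpoly.monic (.of_finite K x)).pow _

lemma natDegree_cp (x : L) : (cp K x).natDegree = finrank K L := by
  rw [cp, natDegree_pow, mul_comm, deg_mul_finrank]

lemma trace_cp (x : L) : Algebra.trace K L x = -(cp K x).nextCoeff := by
  rw [trace_eq_finrank_mul_minpoly_nextCoeff, cp, (minpoly.monic (.of_finite K x)).nextCoeff_pow,
    nsmul_eq_mul, mul_neg]

variable {K}

/-- The logarithmic derivative at zero. -/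
noncomputable def ld (f : K[X]) : K := f.coeff 1 / f.coeff 0

lemma ld_mul {f g : K[X]} (hf : f.coeff 0 ≠ 0) (hg : g.coeff 0 ≠ 0) : ld (f * g) = ld f + ld g := by
  simp only [ld, mul_coeff_one, mul_coeff_zero]
  field_simp
  ring

lemma ld_pow {f : K[X]} (hf : f.coeff 0 ≠ 0) (n : ℕ) : ld (f ^ n) = n * ld f := by
  induction n with
  | zero => simp [ld, coeff_one]
  | succ n ih =>
    rw [pow_succ, ld_mul (by rw [coeff_zero_eq_eval_zero] at hf ⊢; simpa using fun h => absurd h hf)
      hf, ih]
    push_cast; ring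

variable (K)

lemma cp_coeff_zero {x : L} (hx : x ≠ 0) : (cp K x).coeff 0 ≠ 0 := by
  have := minpoly.coeff_zero_ne_zero (.of_finite K x) hx
  rw [coeff_zero_eq_eval_zero] at this ⊢
  rw [cp, eval_pow]
  exact pow_ne_zero _ this

lemma cp_zero : (cp K (0 : L)).coeff 0 = 0 := by
  rw [cp, minpoly.zero, coeff_X_pow, if_neg finrank_pos.ne]

lemma trace_inv_cp {x : L} (hx : x ≠ 0) : Algebra.trace K L x⁻¹ = -ld (cp K x) := by
  have h0 := minpoly.coeff_zero_ne_zero (.of_finite K x) hx
  have hadj : K⟮x⁻¹⟯ = K⟮x⟯ := le_antisymm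
    (adjoin_simple_le_iff.2 (inv_mem (mem_adjoin_simple_self K x)))
    (adjoin_simple_le_iff.2 (inv_mem_iff.1 (mem_adjoin_simple_self K x⁻¹)))
  have hd := minpoly.natDegree_pos (.of_finite K x : IsIntegral K x)
  have hdeg : (minpoly K x⁻¹).natDegree = (minpoly K x).natDegree := by
    rw [← adjoin.finrank (.of_finite K x), ← adjoin.finrank (.of_finite K x⁻¹), hadj]
  set P := minpoly K x
  have ht : P.natTrailingDegree = 0 := natTrailingDegree_eq_zero.2 (Or.inr h0)
  have hr : P.reverse.natDegree = P.natDegree := by rw [reverse_natDegree, ht, Nat.sub_zero]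
  have hm : minpoly K x⁻¹ = P.reverse * C (P.coeff 0)⁻¹ := by
    refine (eq_of_monic_of_dvd_of_natDegree_le (minpoly.monic (.of_finite K _)) ?_
      (minpoly.dvd K _ ?_) ?_).symm
    · rw [Monic, leadingCoeff_mul, reverse_leadingCoeff, trailingCoeff, ht, leadingCoeff_C,
        mul_inv_cancel₀ h0]
    · let := invertibleOfNonzero hx
      rw [map_mul, aeval_def, ← invOf_eq_inv,
        (eval₂_reverse_eq_zero_iff (algebraMap K L) x P).2 (minpoly.aeval K x), zero_mul]
    · rw [natDegree_mul_C (inv_ne_zero h0), hr, hdeg]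
  rw [trace_eq_finrank_mul_minpoly_nextCoeff, hadj, hm, cp, ld_pow h0, nextCoeff_mul_C,
    nextCoeff_of_natDegree_pos (by omega), hr, coeff_reverse, revAt_le (by omega),
    show P.natDegree - (P.natDegree - 1) = 1 by omega, ld, mul_neg, div_eq_mul_inv]

end

variable {p : ℕ} [Fact p.Prime]

noncomputable instance gfFintype (r : ℕ) : Fintype (GaloisField p r) := Fintype.ofFinite _

lemma card_gf {r : ℕ} (hr : r ≠ 0) : Fintype.card (GaloisField p r) = p ^ r := by
  rw [← Nat.card_eq_fintype_card, GaloisField.card p r hr]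

open Classical in
lemma card_minpoly_eq {r : ℕ} (hr : r ≠ 0) {P : (ZMod p)[X]} (hP : Irreducible P) (hm : P.Monic)
    (hd : P.natDegree ∣ r) :
    (univ.filter fun x : GaloisField p r => minpoly (ZMod p) x = P).card = P.natDegree := by
  have h1 := hP.natDegree_dvd_iff_dvd_X_pow_card_pow_sub_X.1 hd
  rw [Nat.card_zmod] at h1
  have h2 := FiniteField.X_pow_card_pow_sub_X_ne_zero (ZMod p) hr (Fact.out : p.Prime).one_lt
  rw [← card_rootSet_eq_natDegree (K := GaloisField p r)
    ((galois_poly_separable p _ (dvd_pow_self p hr)).of_dvd h1)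
    (Splits.of_dvd (SplittingField.splits (X ^ p ^ r - X : (ZMod p)[X])) (Polynomial.map_ne_zero h2)
      (Polynomial.map_dvd _ h1)), ← Set.toFinset_card]
  congr 1
  ext x
  simp only [mem_filter, mem_univ, true_and, Set.mem_toFinset]
  exact Iff.trans ⟨fun h => h ▸ minpoly.aeval _ x,
    fun h => (minpoly.eq_of_irreducible_of_monic hP h hm).symm⟩ (mem_rootSet_of_ne hP.ne_zero).symm

open Classical UniqueFactorizationMonoid in
lemma sum_card_cp_dvd {f : (ZMod p)[X]} (hf : f.Monic) :
    ∑ r ∈ Icc 1 f.natDegree, (univ.filter fun x : GaloisField p r => cp (ZMod p) x ∣ f).card =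
      f.natDegree := by
  have h0 := hf.ne_zero
  have hdeg : f.natDegree = ∑ P ∈ (normalizedFactors f).toFinset,
      (normalizedFactors f).count P * P.natDegree := by
    nth_rewrite 1 [← hf.normalize_eq_self, ← prod_normalizedFactors_eq h0]
    rw [natDegree_multiset_prod_of_monic _ fun P hP =>
      ((Polynomial.mem_normalizedFactors_iff h0).1 hP).2.1, Finset.sum_multiset_map_count]
    rfl
  have h1 : ∀ r ∈ Icc 1 f.natDegree,
      (univ.filter fun x : GaloisField p r => cp (ZMod p) x ∣ f).card =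
      ∑ P ∈ (normalizedFactors f).toFinset, if P.natDegree ∣ r ∧
        r / P.natDegree ≤ (normalizedFactors f).count P then P.natDegree else 0 := by
    intro r hr
    have hr0 : r ≠ 0 := by have := (mem_Icc.1 hr).1; omega
    rw [card_eq_sum_card_fiberwise (f := fun x => minpoly (ZMod p) x)
      (t := (normalizedFactors f).toFinset) fun x hx => ?_]
    · refine Finset.sum_congr rfl fun P hP => ?_
      obtain ⟨hi, hm, -⟩ := (Polynomial.mem_normalizedFactors_iff h0).1 (Multiset.mem_toFinset.1 hP)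
      have key : ∀ x : GaloisField p r, minpoly (ZMod p) x = P → P.natDegree ∣ r ∧
          (cp (ZMod p) x ∣ f ↔ r / P.natDegree ≤ (normalizedFactors f).count P) := fun x hx => by
        have h2 := deg_mul_finrank (ZMod p) x
        rw [GaloisField.finrank p hr0, hx] at h2
        refine ⟨⟨_, h2.symm⟩, ?_⟩
        rw [cp, hx, pow_dvd_iff_le_emultiplicity, emultiplicity_eq_count_normalizedFactors hi h0,
          hm.normalize_eq_self, Nat.cast_le, Nat.div_eq_of_eq_mul_right hi.natDegree_pos h2.symm]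
      split_ifs with h
      · rw [← card_minpoly_eq hr0 hi hm h.1, filter_filter]
        exact congrArg card (filter_congr fun x _ =>
          ⟨fun h' => h'.2, fun h' => ⟨(key x h').2.2 h.2, h'⟩⟩)
      · rw [card_eq_zero, filter_filter, filter_eq_empty_iff]
        exact fun x _ h' => h ⟨(key x h'.2).1, (key x h'.2).2.1 h'.1⟩
    · have hi : IsIntegral (ZMod p) x := .of_finite _ x
      exact Multiset.mem_toFinset.2 ((Polynomial.mem_normalizedFactors_iff h0).2
        ⟨minpoly.irreducible hi, minpoly.monic hi,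
          (dvd_pow_self _ finrank_pos.ne').trans (mem_filter.1 hx).2⟩)
  rw [Finset.sum_congr rfl h1, Finset.sum_comm]
  refine (Finset.sum_congr rfl fun P hP => ?_).trans hdeg.symm
  have hδ := ((Polynomial.mem_normalizedFactors_iff h0).1
    (Multiset.mem_toFinset.1 hP)).1.natDegree_pos
  have hle : (normalizedFactors f).count P * P.natDegree ≤ f.natDegree :=
    (Finset.single_le_sum (f := fun P => (normalizedFactors f).count P * P.natDegree)
      (fun _ _ => Nat.zero_le _) hP).trans hdeg.ge
  rw [← Finset.sum_filter, sum_const, smul_eq_mul]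
  congr 1
  generalize (normalizedFactors f).count P = m at *
  refine Eq.trans (Eq.symm ?_) (show (Icc 1 m).card = m by simp)
  refine card_bij (fun k _ => P.natDegree * k) (fun k hk => ?_)
    (fun _ _ _ _ h => Nat.eq_of_mul_eq_mul_left hδ h) fun r hr => ?_
  · have := mem_Icc.1 hk
    simp only [mem_filter, mem_Icc, Nat.mul_div_cancel_left _ hδ]
    exact ⟨⟨Nat.mul_pos hδ this.1, by nlinarith⟩, dvd_mul_right _ _, this.2⟩
  · simp only [mem_filter, mem_Icc] at hr
    obtain ⟨⟨h2, -⟩, ⟨k, rfl⟩, h3⟩ := hr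
    rw [Nat.mul_div_cancel_left _ hδ] at h3
    exact ⟨k, mem_Icc.2 ⟨Nat.pos_of_mul_pos_left h2, h3⟩, rfl⟩

lemma finite_monic (n : ℕ) : {f : (ZMod p)[X] | f.Monic ∧ f.natDegree = n}.Finite := by
  refine Set.Finite.of_finite_image (f := fun f (i : Fin (n + 1)) => f.coeff i) (Set.toFinite _)
    fun f hf g hg h => ?_
  ext i
  by_cases hi : i < n + 1
  · exact congrFun h ⟨i, hi⟩
  · rw [coeff_eq_zero_of_natDegree_lt (by have := hf.2; omega),
      coeff_eq_zero_of_natDegree_lt (by have := hg.2; omega)]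

/-- Monic polynomials of degree `n`. -/
noncomputable def mon (p : ℕ) [Fact p.Prime] (n : ℕ) : Finset (ZMod p)[X] :=
  (finite_monic n).toFinset

lemma mem_mon {n : ℕ} {f : (ZMod p)[X]} : f ∈ mon p n ↔ f.Monic ∧ f.natDegree = n :=
  (finite_monic n).mem_toFinset

theorem newton (η : (ZMod p)[X] → ℂ) (hη : ∀ f g, f.Monic → g.Monic → η (f * g) = η f * η g)
    (d : ℕ) : d * ∑ f ∈ mon p d, η f =
      ∑ r ∈ Icc 1 d, (∑ x : GaloisField p r, η (cp (ZMod p) x)) * ∑ g ∈ mon p (d - r), η g := by
  classical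
  have h1 : ∀ f ∈ mon p d, d * η f =
      ∑ r ∈ Icc 1 d, ∑ x : GaloisField p r, if cp (ZMod p) x ∣ f then η f else 0 := fun f hf => by
    obtain ⟨hm, rfl⟩ := mem_mon.1 hf
    nth_rewrite 1 [← sum_card_cp_dvd hm]
    simp only [Nat.cast_sum, Finset.sum_mul, ← Finset.sum_filter, sum_const, nsmul_eq_mul]
  rw [Finset.mul_sum, Finset.sum_congr rfl h1, Finset.sum_comm]
  refine Finset.sum_congr rfl fun r hr => ?_
  have hr' := mem_Icc.1 hr
  rw [Finset.sum_comm, Finset.sum_mul]
  refine Finset.sum_congr rfl fun x _ => ?_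
  have hx := cp_monic (ZMod p) x
  have hdx := natDegree_cp (ZMod p) x
  rw [GaloisField.finrank p (by omega)] at hdx
  rw [← Finset.sum_filter, Finset.mul_sum]
  symm
  refine Finset.sum_bij (fun g _ => cp (ZMod p) x * g) (fun g hg => ?_)
    (fun _ _ _ _ h => mul_left_cancel₀ hx.ne_zero h) (fun f hf => ?_)
    fun g hg => (hη _ _ hx (mem_mon.1 hg).1).symm
  · obtain ⟨hm, hg⟩ := mem_mon.1 hg
    refine mem_filter.2 ⟨mem_mon.2 ⟨hx.mul hm, ?_⟩, dvd_mul_right _ _⟩
    rw [hx.natDegree_mul hm]; omega
  · obtain ⟨hf, g, rfl⟩ := mem_filter.1 hf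
    obtain ⟨hm, hd⟩ := mem_mon.1 hf
    have hg := hx.of_mul_monic_left hm
    rw [hx.natDegree_mul hg] at hd
    exact ⟨g, mem_mon.2 ⟨hg, by omega⟩, rfl⟩

end Pool.Agent.Shared.Weil
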