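import Mathlib

/-!
Stepanov's elementary method over an arbitrary finite field of odd order, and the resulting
Weil-type bound for quadratic character sums of separable polynomials.
-/

open Polynomial Finset

namespace Pool.Agent.Shared.Weil

variable {F : Type} [Field F]

lemma pow_dvd_hasseDeriv (f r : F[X]) (e : ℕ) : ∀ k, f ^ (e - k) ∣ hasseDeriv k (f ^ e * r) := by
  induction e with
  | zero => intro k; simp
  | succ e ih =>
    intro k
    rw [pow_succ', mul_assoc, hasseDeriv_mul]
    refine Finset.dvd_sum fun ij hij => ?_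
    have h := mem_antidiagonal.1 hij
    rcases Nat.eq_zero_or_pos ij.1 with h0 | h0
    · rw [h0, hasseDeriv_zero']
      refine (pow_dvd_pow f (show e + 1 - k ≤ e - ij.2 + 1 by omega)).trans ?_
      rw [pow_succ']
      exact mul_dvd_mul_left f (ih _)
    · exact ((pow_dvd_pow f (by omega)).trans (ih ij.2)).mul_left _

lemma exists_op {f : F[X]} (hf : f ≠ 0) (e k : ℕ) : ∃ op : F[X] →ₗ[F] F[X], k ≤ e → ∀ r,
    hasseDeriv k (f ^ e * r) = f ^ (e - k) * op r ∧
      (op r).natDegree ≤ r.natDegree + k * f.natDegree := by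
  obtain ⟨g, hg⟩ := (LinearMap.mulLeft F (f ^ (e - k))).exists_leftInverse_of_injective
    (LinearMap.ker_eq_bot.2 (mul_right_injective₀ (pow_ne_zero _ hf)))
  refine ⟨g ∘ₗ hasseDeriv k ∘ₗ LinearMap.mulLeft F (f ^ e), fun hk r => ?_⟩
  obtain ⟨u, hu⟩ := pow_dvd_hasseDeriv f r e k
  have : (g ∘ₗ hasseDeriv k ∘ₗ LinearMap.mulLeft F (f ^ e)) r = u := by
    simp only [LinearMap.comp_apply, LinearMap.mulLeft_apply, hu]
    exact LinearMap.congr_fun hg u
  rw [this]
  refine ⟨hu, ?_⟩
  rcases eq_or_ne u 0 with rfl | h0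
  · simp
  have h1 := natDegree_hasseDeriv_le (f ^ e * r) k
  have h2 := natDegree_mul_le (p := f ^ e) (q := r)
  rw [hu, natDegree_mul (pow_ne_zero _ hf) h0, natDegree_pow] at h1
  rw [natDegree_pow] at h2
  obtain ⟨d, rfl⟩ := Nat.exists_eq_add_of_le hk
  rw [Nat.add_sub_cancel_left] at h1
  rw [add_mul] at h2
  omega

lemma not_sq {f : F[X]} (hs : f.Separable) (hd : 0 < f.natDegree) {u v : F[X]} {c : F}
    (h : u ^ 2 * f = v ^ 2 * C c) : u = 0 := by
  by_contra hu
  let φ := algebraMap F (AlgebraicClosure F)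
  have hf : f.map φ ≠ 0 := Polynomial.map_ne_zero hs.ne_zero
  obtain ⟨a, ha⟩ := IsAlgClosed.exists_root (f.map φ) (by
    rw [degree_map]; exact (natDegree_pos_iff_degree_pos.1 hd).ne')
  have h1 : (f.map φ).rootMultiplicity a = 1 :=
    le_antisymm (rootMultiplicity_le_one_of_separable hs.map a) ((rootMultiplicity_pos hf).2 ha)
  have h4 := congrArg (Polynomial.map φ) h
  simp only [Polynomial.map_mul, Polynomial.map_pow, map_C] at h4
  have h5 : u.map φ ≠ 0 := Polynomial.map_ne_zero hu
  have h6 : u.map φ ^ 2 * f.map φ ≠ 0 := mul_ne_zero (pow_ne_zero _ h5) hf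
  have h7 := congrArg (rootMultiplicity a) h4
  have h8 : v.map φ ≠ 0 := by rintro h8; rw [h4, h8] at h6; simp at h6
  rw [rootMultiplicity_mul h6, rootMultiplicity_mul (h4 ▸ h6), h1, rootMultiplicity_C, sq, sq,
    rootMultiplicity_mul (mul_ne_zero h5 h5), rootMultiplicity_mul (mul_ne_zero h8 h8)] at h7
  omega

variable [Fintype F] {q : ℕ}

lemma nonvanish (hq : Fintype.card F = q) {c D : ℕ} (hc : q = 2 * c + 1) {f : F[X]}
    (h0 : f.coeff 0 ≠ 0) (hsep : f.Separable) (hd : 0 < f.natDegree)
    (hD : 2 * D + f.natDegree < q) (J : ℕ) :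
    ∀ r s : ℕ → F[X], (∀ j, (r j).natDegree ≤ D) → (∀ j, (s j).natDegree ≤ D) →
      ∑ j ∈ range J, (r j + f ^ c * s j) * X ^ (j * q) = 0 → ∀ j < J, r j = 0 ∧ s j = 0 := by
  induction J with
  | zero => intro r s _ _ _ j hj; omega
  | succ J ih =>
    intro r s hr hs h
    have e : ∑ j ∈ range J, (r (j + 1) + f ^ c * s (j + 1)) * X ^ ((j + 1) * q) =
        X ^ q * ∑ j ∈ range J, (r (j + 1) + f ^ c * s (j + 1)) * X ^ (j * q) := by
      rw [Finset.mul_sum]
      exact Finset.sum_congr rfl fun j _ => by ring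
    rw [Finset.sum_range_succ', e, zero_mul, pow_zero, mul_one] at h
    have h1 : X ^ q ∣ r 0 + f ^ c * s 0 := 
      ⟨-∑ j ∈ range J, (r (j + 1) + f ^ c * s (j + 1)) * X ^ (j * q), by linear_combination h⟩
    have h2 : X ^ q ∣ f ^ q - C (f.coeff 0) := by
      refine ⟨expand F q f.divX, ?_⟩
      rw [← hq, ← FiniteField.expand_card, hq]
      nth_rewrite 1 [← divX_mul_X_add f]
      simp only [map_add, map_mul, expand_X, expand_C]
      ring
    have h3 : X ^ q ∣ r 0 ^ 2 * f - s 0 ^ 2 * C (f.coeff 0) := by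
      have : r 0 ^ 2 * f - s 0 ^ 2 * C (f.coeff 0) =
          f * (r 0 - f ^ c * s 0) * (r 0 + f ^ c * s 0) + s 0 ^ 2 * (f ^ q - C (f.coeff 0)) := by
        have : f ^ q = f ^ (2 * c + 1) := by rw [← hc]
        rw [this]; ring
      rw [this]
      exact (h1.mul_left _).add (h2.mul_left _)
    have h4 : r 0 ^ 2 * f = s 0 ^ 2 * C (f.coeff 0) := by
      refine sub_eq_zero.1 (eq_zero_of_dvd_of_natDegree_lt h3 ?_)
      rw [natDegree_X_pow]
      refine lt_of_le_of_lt (natDegree_sub_le _ _) (max_lt ?_ ?_)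
      · have := natDegree_mul_le (p := r 0 ^ 2) (q := f)
        have := natDegree_pow_le (p := r 0) (n := 2)
        have := hr 0
        omega
      · have := natDegree_mul_C_le (s 0 ^ 2) (f.coeff 0)
        have := natDegree_pow_le (p := s 0) (n := 2)
        have := hs 0
        omega
    have h5 : r 0 = 0 := not_sq hsep hd h4
    have h6 : s 0 = 0 := by
      rw [h5] at h4
      simpa [h0] using h4.symm
    rw [h5, h6, mul_zero, add_zero, add_zero] at h
    have h7 := ih (fun j => r (j + 1)) (fun j => s (j + 1)) (fun j => hr _) (fun j => hs _)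
      ((mul_eq_zero.1 h).resolve_left (pow_ne_zero _ X_ne_zero))
    intro j hj
    rcases j with _ | j
    · exact ⟨h5, h6⟩
    · exact h7 j (by omega)

lemma stepanov [DecidableEq F] (hq : Fintype.card F = q) {c D L J : ℕ} (hc : q = 2 * c + 1)
    {f : F[X]} (h0 : f.coeff 0 ≠ 0) (hsep : f.Separable) (hd : 0 < f.natDegree)
    (hD : 2 * D + f.natDegree < q) (hL : L ≤ q)
    (hJ : L * (D + L * f.natDegree + J) < 2 * (J * (D + 1))) (t : F) :
    L * (univ.filter fun x => f.eval x ^ c = t).card ≤ (L + c) * f.natDegree + D + (J - 1) * q := by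
  set m := f.natDegree with hm
  have hf : f ≠ 0 := hsep.ne_zero
  choose op hop using exists_op hf
  let pr : Fin J → (Fin J → Fin (D + 1) → F) →ₗ[F] F[X] := fun j =>
    ofFn (D + 1) ∘ₗ LinearMap.proj j
  let σ : ℕ → ((Fin J → Fin (D + 1) → F) × (Fin J → Fin (D + 1) → F)) →ₗ[F]
      F[X] := fun k => ∑ j : Fin J, LinearMap.mulRight F (X ^ (j : ℕ)) ∘ₗ
        (op L k ∘ₗ pr j ∘ₗ LinearMap.fst _ _ _ +
          t • (op (L + c) k ∘ₗ pr j ∘ₗ LinearMap.snd _ _ _))
  let Φ : ((Fin J → Fin (D + 1) → F) × (Fin J → Fin (D + 1) → F)) →ₗ[F]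
      (Fin L → Fin (D + L * m + J) → F) :=
    LinearMap.pi fun k => LinearMap.pi fun i => lcoeff F i ∘ₗ σ k
  obtain ⟨v, hv, hv0⟩ := (Submodule.ne_bot_iff _).1 (Φ.ker_ne_bot_of_finrank_lt (by
    simp only [Module.finrank_prod, Module.finrank_pi_fintype, Module.finrank_self, sum_const,
      card_univ, Fintype.card_fin, smul_eq_mul, mul_one]
    omega))
  have hdeg : ∀ w : Fin (D + 1) → F, (ofFn (D + 1) w).natDegree ≤ D := fun w =>
    Nat.le_of_lt_succ (ofFn_natDegree_lt (by omega) w)
  let r : ℕ → F[X] := fun j => if h : j < J then ofFn (D + 1) (v.1 ⟨j, h⟩) else 0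
  let s : ℕ → F[X] := fun j => if h : j < J then ofFn (D + 1) (v.2 ⟨j, h⟩) else 0
  have hr : ∀ j, (r j).natDegree ≤ D := fun j => by
    simp only [r]; split_ifs; exacts [hdeg _, by simp]
  have hs : ∀ j, (s j).natDegree ≤ D := fun j => by
    simp only [s]; split_ifs; exacts [hdeg _, by simp]
  have hσ : ∀ k, σ k v = ∑ j ∈ range J, (op L k (r j) + t • op (L + c) k (s j)) * X ^ j := by
    intro k
    rw [← Fin.sum_univ_eq_sum_range (fun j => (op L k (r j) + t • op (L + c) k (s j)) * X ^ j)]
    simp [σ, pr, r, s, LinearMap.sum_apply]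
  have hσ0 : ∀ k < L, σ k v = 0 := by
    intro k hk
    have hd : ∀ j ∈ range J, ((op L k (r j) + t • op (L + c) k (s j)) * X ^ j).natDegree <
        D + L * m + J := fun j hj => by
      have h1 := (hop L k hk.le (r j)).2
      have h2 := (hop (L + c) k (by omega) (s j)).2
      have h3 := natDegree_smul_le t (op (L + c) k (s j))
      have h4 := natDegree_add_le (op L k (r j)) (t • op (L + c) k (s j))
      have h5 := natDegree_mul_le (p := op L k (r j) + t • op (L + c) k (s j)) (q := X ^ j)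
      have h6 : k * m ≤ L * m := Nat.mul_le_mul_right m hk.le
      have := hr j
      have := hs j
      have := mem_range.1 hj
      rw [natDegree_X_pow] at h5
      rw [← hm] at h1 h2
      omega
    ext i
    by_cases hi : i < D + L * m + J
    · exact congrFun (congrFun (LinearMap.mem_ker.1 hv) ⟨k, hk⟩) ⟨i, hi⟩
    · rw [hσ, finsetSum_coeff, coeff_zero]
      exact Finset.sum_eq_zero fun j hj => coeff_eq_zero_of_natDegree_lt (by have := hd j hj; omega)
  set R := ∑ j ∈ range J, (f ^ L * r j * X ^ (j * q) + f ^ (L + c) * s j * X ^ (j * q)) with hR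
  have hR0 : R ≠ 0 := by
    intro h
    have h1 : f ^ L * ∑ j ∈ range J, (r j + f ^ c * s j) * X ^ (j * q) = 0 := by
      rw [← h, hR, Finset.mul_sum]
      exact Finset.sum_congr rfl fun j _ => by ring
    have h2 := nonvanish hq hc h0 hsep hd hD J r s hr hs
      ((mul_eq_zero.1 h1).resolve_left (pow_ne_zero _ hf))
    refine hv0 (Prod.ext (funext fun j => ?_) (funext fun j => ?_))
    · exact injective_ofFn (D + 1) (by simpa [r] using (h2 j j.2).1)
    · exact injective_ofFn (D + 1) (by simpa [s] using (h2 j j.2).2)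
  have hRd : R.natDegree ≤ (L + c) * m + D + (J - 1) * q := by
    refine natDegree_sum_le_of_forall_le _ _ fun j hj => ?_
    have h1 : j * q ≤ (J - 1) * q := Nat.mul_le_mul_right q (by have := mem_range.1 hj; omega)
    have key : ∀ (e : ℕ) (u : F[X]), e ≤ L + c → u.natDegree ≤ D →
        (f ^ e * u * X ^ (j * q)).natDegree ≤ (L + c) * m + D + (J - 1) * q := fun e u he hu => by
      have h2 := natDegree_mul_le (p := f ^ e * u) (q := X ^ (j * q))
      have h3 := natDegree_mul_le (p := f ^ e) (q := u)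
      have h4 := natDegree_pow_le (p := f) (n := e)
      have h5 : e * m ≤ (L + c) * m := Nat.mul_le_mul_right m he
      rw [natDegree_X_pow] at h2
      rw [← hm] at h4
      omega
    exact natDegree_add_le_of_degree_le (key _ _ (by omega) (hr j)) (key _ _ le_rfl (hs j))
  have hmult : ∀ x, f.eval x ^ c = t → L ≤ R.rootMultiplicity x := by
    intro x hx
    have hT : taylor x R ≠ 0 := fun h => hR0 (taylor_injective x (by rw [h, map_zero]))
    rw [rootMultiplicity_eq_natTrailingDegree, ← taylor_apply]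
    refine le_natTrailingDegree hT fun k hk => ?_
    have hw : ∀ (u : F[X]) (j : ℕ), (taylor x (u * X ^ (j * q))).coeff k =
        (hasseDeriv k u).eval x * x ^ j := fun u j => by
      have e : (X + C x : F[X]) ^ q = X ^ q + C x := by
        rw [← hq, ← FiniteField.expand_card, map_add, expand_X, expand_C]
      obtain ⟨w, hw⟩ := sub_dvd_pow_sub_pow (X ^ q + C x : F[X]) (C x) j
      rw [taylor_mul, taylor_X_pow, mul_comm j, pow_mul, e, eq_add_of_sub_eq hw, add_sub_cancel_right,
        mul_add, coeff_add, mul_left_comm, coeff_X_pow_mul', if_neg (by omega), zero_add, ← C_pow,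
        coeff_mul_C, taylor_coeff]
    have h1 := congrArg (eval x) ((hσ k).symm.trans (hσ0 k hk))
    rw [hR, map_sum, finsetSum_coeff]
    simp only [map_add, coeff_add, hw, (hop L k hk.le _).1, (hop (L + c) k (by omega) _).1,
      eval_finsetSum, eval_add, eval_mul, eval_pow, eval_X, eval_smul, smul_eq_mul, eval_zero] at h1 ⊢
    have h2 := congrArg (eval x f ^ (L - k) * ·) h1
    simp only [Finset.mul_sum, mul_zero] at h2
    rw [← h2]
    refine Finset.sum_congr rfl fun j _ => ?_
    rw [show L + c - k = L - k + c by omega, pow_add, hx]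
    ring
  refine le_trans ?_ ((card_roots' R).trans hRd)
  rw [← Multiset.toFinset_sum_count_eq, mul_comm, ← smul_eq_mul, ← Finset.sum_const]
  rcases Nat.eq_zero_or_pos L with h | h
  · simp [h]
  refine (Finset.sum_le_sum fun x hx => ?_).trans (Finset.sum_le_sum_of_subset fun x hx => ?_)
  · rw [count_roots]; exact hmult x (mem_filter.1 hx).2
  · rw [Multiset.mem_toFinset, ← Multiset.one_le_count_iff_mem, count_roots]
    exact le_trans h (hmult x (mem_filter.1 hx).2)

/-- One-sided Weil-type bound, for `f 0 ≠ 0`. -/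
lemma quadChar_sum_ge0 [DecidableEq F] (hq : Fintype.card F = q) (hp : q % 2 = 1) {f : F[X]}
    (hc0 : f.coeff 0 ≠ 0) (hsep : f.Separable) (hm0 : 0 < f.natDegree)
    (hm : f.natDegree < q.sqrt) (hL : 6 ≤ q.sqrt) :
    -(15 * f.natDegree * q.sqrt : ℤ) ≤ ∑ y, quadraticChar F (f.eval y) := by
  obtain ⟨c, hc⟩ : ∃ c, q = 2 * c + 1 := ⟨q / 2, by omega⟩
  have hL1 : q.sqrt * q.sqrt ≤ q := Nat.sqrt_le q
  have hL2 : q < (q.sqrt + 1) * (q.sqrt + 1) := Nat.lt_succ_sqrt q
  generalize q.sqrt = L at *
  have hroots : (univ.filter fun y => f.eval y = 0).card ≤ f.natDegree :=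
    card_le_degree_of_subset_roots fun y hy =>
      (mem_roots hsep.ne_zero).2 (mem_filter.1 hy).2
  have key := fun D J => stepanov (L := L) (J := J) (D := D) hq hc hc0 hsep hm0
  set m := f.natDegree with hmd
  have hmp : 6 * m < q := by nlinarith
  obtain ⟨D, hD1, hD2⟩ : ∃ D, 2 * D + m < q ∧ q ≤ 2 * D + m + 2 := ⟨(q - m - 1) / 2, by omega⟩
  obtain ⟨l, hl1, hl2⟩ : ∃ l, 2 * l ≤ L ∧ L ≤ 2 * l + 1 := ⟨L / 2, by omega⟩
  replace key := key D (l + 2 * m + 1) hD1 (by nlinarith) (by
      have e1 : L * (D + 1) ≤ (2 * l + 1) * (D + 1) := Nat.mul_le_mul_right _ hl2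
      have e2 : L * L * m ≤ q * m := Nat.mul_le_mul_right _ hL1
      have e3 : L * (2 * l) ≤ L * L := Nat.mul_le_mul_left _ hl1
      have e4 : (4 * m + 1) * q ≤ (4 * m + 1) * (2 * D + m + 2) := Nat.mul_le_mul_left _ hD2
      have e5 : m * (6 * L) ≤ m * q := Nat.mul_le_mul_left _ (by nlinarith)
      have e6 : m * (m + 1) ≤ m * L := Nat.mul_le_mul_left _ hm
      have e7 : 0 < L := by omega
      linarith [Nat.zero_le (m * L), Nat.zero_le (m * m), Nat.zero_le m]) (-1)
  rw [Nat.add_sub_cancel] at key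
  set N := (univ.filter fun x => f.eval x ^ c = -1).card with hN
  have hN2 : 2 * N ≤ q + 14 * m * L := by
    refine Nat.le_of_mul_le_mul_left ?_ (show 0 < L by omega)
    have e1 : 2 * l * q ≤ L * q := Nat.mul_le_mul_right _ hl1
    have e2 : q ≤ 2 * (L * L) := by nlinarith
    have e3 : m * q ≤ m * (2 * (L * L)) := Nat.mul_le_mul_left _ e2
    have e4 : 1 * q ≤ m * q := Nat.mul_le_mul_right _ hm0
    have e5 : m * L * 1 ≤ m * L * L := Nat.mul_le_mul_left _ (by omega)
    have e6 : 2 * c * m ≤ q * m := Nat.mul_le_mul_right _ (by omega)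
    linarith [Nat.zero_le (m * L * L), Nat.zero_le m]
  have hchar : ringChar F ≠ 2 := fun h => by
    have := FiniteField.even_card_of_char_two h
    omega
  have hpt : ∀ y, (1 : ℤ) - (if f.eval y = 0 then 1 else 0) -
      2 * (if f.eval y ^ c = -1 then 1 else 0) ≤ quadraticChar F (f.eval y) := fun y => by
    by_cases hy : f.eval y = 0
    · rw [if_pos hy, hy, MulChar.map_zero]; split_ifs <;> norm_num
    · rw [if_neg hy]
      rcases quadraticChar_dichotomy hy with h | h
      · rw [h]; split_ifs <;> norm_num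
      · have h2 := quadraticChar_eq_pow_of_char_ne_two' hchar (f.eval y)
        rw [h, hq, show q / 2 = c by omega] at h2
        rw [h, if_pos (by rw [← h2]; simp)]; norm_num
  refine le_trans ?_ (Finset.sum_le_sum fun y _ => hpt y)
  simp only [Finset.sum_sub_distrib, ← Finset.mul_sum, Finset.sum_boole, sum_const, card_univ,
    hq, nsmul_eq_mul, mul_one, ← hN]
  have e1 : (m : ℤ) * 1 ≤ m * L := by exact_mod_cast Nat.mul_le_mul_left m (show 1 ≤ L by omega)
  have e2 : (2 * N : ℤ) ≤ q + 14 * m * L := by exact_mod_cast hN2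
  have e3 : ((univ.filter fun y => f.eval y = 0).card : ℤ) ≤ m := by exact_mod_cast hroots
  linarith

/-- One-sided Weil-type bound. -/
lemma quadChar_sum_ge [DecidableEq F] (hq : Fintype.card F = q) (hp : q % 2 = 1) {f : F[X]}
    (hsep : f.Separable) (hm0 : 0 < f.natDegree) (hm : f.natDegree < q.sqrt) (hL : 6 ≤ q.sqrt) :
    -(15 * f.natDegree * q.sqrt : ℤ) ≤ ∑ y, quadraticChar F (f.eval y) := by
  obtain ⟨b, hb⟩ : ∃ b, f.eval b ≠ 0 := by
    by_contra! h
    have := Nat.sqrt_le_self q
    exact hsep.ne_zero (eq_zero_of_natDegree_lt_card_of_eval_eq_zero f Function.injective_id h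
      (by omega))
  have := quadChar_sum_ge0 hq hp (f := taylor b f) (by simpa using hb)
    (by
      have := IsCoprime.map hsep (taylorAlgHom b).toRingHom
      rw [Separable, taylor_apply, derivative_comp]
      simpa [taylor_apply] using this) (by simpa using hm0) (by simpa using hm) hL
  rw [natDegree_taylor] at this
  refine this.trans_eq (Fintype.sum_equiv (Equiv.addRight b) _ _ fun y => ?_)
  simp [taylor_eval]

/-- Weil-type bound for quadratic character sums of separable polynomials. -/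
theorem abs_quadChar_sum_le [DecidableEq F] (hq : Fintype.card F = q) (hp : q % 2 = 1) {f : F[X]}
    (hsep : f.Separable) (hm0 : 0 < f.natDegree) (hm : f.natDegree < q.sqrt) (hL : 6 ≤ q.sqrt) :
    |∑ y, quadraticChar F (f.eval y)| ≤ 15 * f.natDegree * q.sqrt := by
  refine abs_le.2 ⟨quadChar_sum_ge hq hp hsep hm0 hm hL, ?_⟩
  obtain ⟨g, hg⟩ := quadraticChar_exists_neg_one (F := F) fun h => by
    have := FiniteField.even_card_of_char_two h
    omega
  have hg0 : g ≠ 0 := by rintro rfl; simp at hg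
  have hd := natDegree_C_mul (p := f) hg0
  have := quadChar_sum_ge hq hp (f := C g * f) (Separable.unit_mul (isUnit_C.2 hg0.isUnit) hsep)
    (by omega) (by omega) hL
  simp only [hd, eval_mul, eval_C, map_mul, hg, ← Finset.mul_sum] at this
  linarith

end Pool.Agent.Shared.Weil
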