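import Pool.Agent.Shared.Weil.Stepanov
import Pool.Agent.Shared.Weil.LFun

/-!
The Weil bound for Kloosterman sums modulo a prime.
-/

open Polynomial Finset

namespace Pool.Agent.Shared.Weil

variable {p : ℕ} [Fact p.Prime]

/-- The multiplicative function attached to the Kloosterman sum. -/
noncomputable def eta (a b : ZMod p) (f : (ZMod p)[X]) : ℂ :=
  if f.coeff 0 = 0 then 0 else ZMod.stdAddChar (-(a * f.nextCoeff + b * ld f))

lemma eta_mul (a b : ZMod p) (f g : (ZMod p)[X]) (hf : f.Monic) (hg : g.Monic) :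
    eta a b (f * g) = eta a b f * eta a b g := by
  unfold eta
  by_cases h : f.coeff 0 = 0
  · simp [h]
  by_cases h' : g.coeff 0 = 0
  · simp [h']
  rw [if_neg h, if_neg h', if_neg (by simp [h, h']), hf.nextCoeff_mul hg, ld_mul h h',
    ← AddChar.map_add_eq_mul]
  congr 1; ring

/-- The Kloosterman sum. -/
noncomputable def kl (a b : ZMod p) : ℂ :=
  ∑ x : ZMod p, if x = 0 then 0 else ZMod.stdAddChar (a * x + b * x⁻¹)

lemma coef_zero (a b : ZMod p) : ∑ f ∈ mon p 0, eta a b f = 1 := by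
  have : mon p 0 = {1} := by
    ext f
    simp only [mem_mon, mem_singleton]
    exact ⟨fun h => h.1.natDegree_eq_zero.1 h.2, by rintro rfl; simp⟩
  have h1 : (1 : (ZMod p)[X]).nextCoeff = 0 := by rw [← C_1, nextCoeff_C_eq_zero]
  simp [this, eta, h1, ld, coeff_one]

lemma coef_one (a b : ZMod p) : ∑ f ∈ mon p 1, eta a b f = kl a b := by
  symm
  refine Finset.sum_bij (fun x _ => X - C x) (fun x _ => mem_mon.2 ⟨monic_X_sub_C x, by simp⟩)
    (fun x _ y _ h => C_injective (sub_right_injective h)) (fun f hf => ?_) fun x _ => ?_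
  · obtain ⟨hm, hd⟩ := mem_mon.1 hf
    exact ⟨-f.coeff 0, mem_univ _, by rw [map_neg, sub_neg_eq_add, ← hm.eq_X_add_C hd]⟩
  · simp only [eta, nextCoeff_X_sub_C, ld, coeff_sub, coeff_X_zero, coeff_C_zero, zero_sub,
      neg_eq_zero, coeff_X_one, coeff_C_succ, sub_zero]
    split_ifs
    · rfl
    · congr 1; rw [one_div, inv_neg]; ring

lemma coef_two {a b : ZMod p} (ha : a ≠ 0) (hb : b ≠ 0) : ∑ f ∈ mon p 2, eta a b f = p := by
  have e : ∑ z : ZMod p × ZMod p, (if z.1 = 0 then (0 : ℂ) else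
      ZMod.stdAddChar (z.2 * -(a + b / z.1))) = ∑ f ∈ mon p 2, eta a b f := by
    have hm : ∀ z : ZMod p × ZMod p, (X ^ 2 + C z.2 * X + C z.1 : (ZMod p)[X]).Monic ∧
        (X ^ 2 + C z.2 * X + C z.1 : (ZMod p)[X]).natDegree = 2 := fun z =>
      ⟨by monicity!, by compute_degree!⟩
    refine Finset.sum_bij (fun z _ => X ^ 2 + C z.2 * X + C z.1) (fun z _ => mem_mon.2 (hm z))
      (fun x _ y _ h => ?_) (fun f hf => ?_) fun z _ => ?_
    · have h0 := congrArg (coeff · 0) h
      have h1 := congrArg (coeff · 1) h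
      simp [coeff_X_pow, coeff_C] at h0 h1
      exact Prod.ext h0 h1
    · obtain ⟨hm, hd⟩ := mem_mon.1 hf
      refine ⟨(f.coeff 0, f.coeff 1), mem_univ _, ?_⟩
      refine Eq.trans ?_ hm.as_sum.symm
      simp [hd, Finset.sum_range_succ]
      ring
    · rw [eta, nextCoeff_of_natDegree_pos (by rw [(hm z).2]; norm_num), (hm z).2, ld]
      simp only [coeff_add, coeff_X_pow, coeff_C_mul, coeff_X, coeff_C]
      norm_num
      split_ifs
      · rfl
      · congr 1; ring
  rw [← e, Fintype.sum_prod_type, Finset.sum_eq_single (-b / a) (fun v _ hv => ?_) (by simp)]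
  · have h0 : -b / a ≠ 0 := div_ne_zero (neg_ne_zero.2 hb) ha
    have : a + b / (-b / a) = 0 := by field_simp; ring
    simp [h0, this, -div_eq_zero_iff]
  · by_cases h0 : v = 0
    · simp [h0]
    · simp only [h0, if_false]
      rw [AddChar.sum_mulShift _ (ZMod.isPrimitive_stdAddChar p), if_neg, Nat.cast_zero]
      intro h
      refine hv ?_
      rw [neg_eq_zero] at h
      field_simp at h ⊢
      linear_combination h

lemma coef_big {a : ZMod p} (ha : a ≠ 0) (b : ZMod p) {d : ℕ} (hd : 3 ≤ d) :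
    ∑ f ∈ mon p d, eta a b f = 0 := by
  have hsh : ∀ c : ZMod p, ∀ f ∈ mon p d, f + C c * X ^ (d - 1) ∈ mon p d := fun c f hf => by
    obtain ⟨hm, hf⟩ := mem_mon.1 hf
    have h1 : (C c * X ^ (d - 1) : (ZMod p)[X]).natDegree < f.natDegree :=
      (natDegree_C_mul_X_pow_le c _).trans_lt (by omega)
    exact mem_mon.2 ⟨hm.add_of_left (degree_lt_degree h1),
      (natDegree_add_eq_left_of_natDegree_lt h1).trans hf⟩
  have e : ∑ f ∈ mon p d, ZMod.stdAddChar (-a) * eta a b f = ∑ f ∈ mon p d, eta a b f := by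
    refine Finset.sum_nbij' (fun f => f + C 1 * X ^ (d - 1)) (fun f => f + C (-1) * X ^ (d - 1))
      (hsh 1) (hsh (-1)) (fun f _ => by simp) (fun f _ => by simp) fun f hf => ?_
    have h1 := (mem_mon.1 (hsh 1 f hf)).2
    have h2 := (mem_mon.1 hf).2
    rw [eta, eta, nextCoeff_of_natDegree_pos (p := f) (by omega),
      nextCoeff_of_natDegree_pos (by omega), h1, h2, ld, ld]
    simp only [coeff_add, coeff_C_mul, coeff_X_pow, if_true, if_neg (show ¬ 0 = d - 1 by omega),
      if_neg (show ¬ 1 = d - 1 by omega), mul_zero, add_zero]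
    split_ifs
    · simp
    · rw [← AddChar.map_add_eq_mul]; congr 1; ring
  rw [← Finset.mul_sum] at e
  by_contra h
  have h1 : ZMod.stdAddChar (-a) = ZMod.stdAddChar (0 : ZMod p) := by
    rw [AddChar.map_zero_eq_one]; exact (mul_eq_right₀ h).1 e
  exact ha (neg_eq_zero.1 (ZMod.injective_stdAddChar h1))

/-- The power sums of the roots of `X^2 - t X + n`. -/
def pw (n t : ℝ) : ℕ → ℝ
  | 0 => 2
  | 1 => t
  | r + 2 => t * pw n t (r + 1) - n * pw n t r

lemma kl_im (a b : ZMod p) : kl a b = (kl a b).re := by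
  refine (Complex.conj_eq_iff_re.1 ?_).symm
  rw [kl, map_sum]
  refine Fintype.sum_equiv (Equiv.neg _) _ _ fun x => ?_
  simp only [Equiv.neg_apply, neg_eq_zero]
  split_ifs
  · simp
  · rw [← AddChar.map_neg_eq_conj, inv_neg]; congr 1; ring

lemma sum_cp {a b : ZMod p} (ha : a ≠ 0) (hb : b ≠ 0) (r : ℕ) :
    ∑ x : GaloisField p (r + 1), eta a b (cp (ZMod p) x) = -pw p (-(kl a b).re) (r + 1) := by
  have hN := newton (eta a b) (eta_mul a b)
  induction r using Nat.twoStepInduction with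
  | zero =>
    have := hN 1
    simp only [Icc_self, sum_singleton, Nat.sub_self, coef_zero, coef_one] at this
    rw [zero_add, pw, Complex.ofReal_neg, ← kl_im]
    linear_combination -this
  | one =>
    have h1 := hN 1
    have h2 := hN 2
    rw [Finset.sum_Icc_succ_top (by norm_num)] at h2
    simp only [Icc_self, sum_singleton, Nat.sub_self, coef_zero, coef_one, coef_two ha hb,
      Nat.add_one_sub_one] at h1 h2
    simp only [pw]
    push_cast at h1 h2 ⊢
    rw [← kl_im]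
    linear_combination -h2 + kl a b * h1
  | more r ih1 ih2 =>
    have h := hN (r + 3)
    rw [Finset.sum_Icc_succ_top (by omega), Finset.sum_Icc_succ_top (by omega),
      Finset.sum_Icc_succ_top (by omega), Finset.sum_eq_zero (s := Icc 1 r) fun k hk => by
        rw [coef_big ha b (by have := mem_Icc.1 hk; omega), mul_zero], coef_big ha b (by omega),
      show r + 3 - (r + 1) = 2 by omega, show r + 3 - (r + 1 + 1) = 1 by omega,
      show r + 3 - (r + 2 + 1) = 0 by omega, coef_zero, coef_one, coef_two ha hb, ih1, ih2] at h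
    rw [pw]
    push_cast
    rw [← kl_im]
    linear_combination -h

lemma pw_eq {n t : ℝ} {α β : ℂ} (h1 : α + β = t) (h2 : α * β = n) (r : ℕ) :
    (pw n t r : ℂ) = α ^ r + β ^ r := by
  induction r using Nat.twoStepInduction with
  | zero => simp [pw]; norm_num
  | one => simp [pw, h1]
  | more r ih1 ih2 => rw [pw]; push_cast; rw [ih1, ih2, ← h1, ← h2]; ring

lemma pw_big {n t : ℝ} (h : 4 * n < t ^ 2) : ∃ γ, n < γ ∧ ∀ k, γ ^ k ≤ pw n t (2 * k) := by
  obtain ⟨w, hw0, hw⟩ : ∃ w : ℝ, 0 < w ∧ w ^ 2 = t ^ 2 - 4 * n :=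
    ⟨√(t ^ 2 - 4 * n), Real.sqrt_pos.2 (by linarith), Real.sq_sqrt (by linarith)⟩
  have key : ∀ k, pw n t (2 * k) = (((|t| + w) / 2) ^ 2) ^ k + (((|t| - w) / 2) ^ 2) ^ k := fun k => by
    have hw' : (w : ℂ) ^ 2 = t ^ 2 - 4 * n := by exact_mod_cast hw
    have := pw_eq (n := n) (t := t) (α := ((t + w) / 2 : ℝ)) (β := ((t - w) / 2 : ℝ))
      (by push_cast; ring) (by push_cast; linear_combination -hw' / 4) (2 * k)
    rw [pow_mul, pow_mul] at this
    norm_cast at this
    rw [this]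
    rcases abs_cases t with h | h <;> rw [h.1]
    rw [add_comm]
    congr 2 <;> ring
  refine ⟨((|t| + w) / 2) ^ 2, ?_, fun k => ?_⟩
  · nlinarith [sq_abs t, mul_nonneg (abs_nonneg t) hw0.le]
  · rw [key]; exact le_add_of_nonneg_right (by positivity)

lemma pw_ge {n : ℝ} (hn : 0 < n) (t : ℝ) (k : ℕ) : -(2 * n ^ k) ≤ pw n t (2 * k) := by
  rcases lt_or_ge (4 * n) (t ^ 2) with h | h
  · obtain ⟨γ, h1, h2⟩ := pw_big h
    exact le_trans (neg_nonpos.2 (by positivity)) ((pow_nonneg (by linarith) k).trans (h2 k))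
  obtain ⟨w, hw⟩ : ∃ w : ℝ, w ^ 2 = 4 * n - t ^ 2 := ⟨_, Real.sq_sqrt (by linarith)⟩
  have hw' : (w : ℂ) ^ 2 = 4 * n - t ^ 2 := by exact_mod_cast hw
  have := pw_eq (n := n) (t := t) (α := (t + w * Complex.I) / 2) (β := (t - w * Complex.I) / 2)
    (by ring) (by linear_combination hw' / 4 - w ^ 2 / 4 * Complex.I_sq) (2 * k)
  have h1 : ‖((t : ℂ) + w * Complex.I) / 2‖ ^ 2 = n := by
    rw [norm_div, div_pow, Complex.sq_norm, Complex.normSq_add_mul_I]; norm_num; linarith
  have h2 : ‖((t : ℂ) - w * Complex.I) / 2‖ ^ 2 = n := by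
    rw [norm_div, div_pow, Complex.sq_norm, sub_eq_add_neg, ← neg_mul, ← Complex.ofReal_neg,
      Complex.normSq_add_mul_I]; norm_num; linarith
  have h3 := (congrArg norm this).trans_le (norm_add_le _ _)
  rw [norm_pow, norm_pow, pow_mul, pow_mul, h1, h2, Complex.norm_real, Real.norm_eq_abs] at h3
  linarith [neg_abs_le (pw n t (2 * k))]

open Classical in
lemma card_trace_zero (hp2 : p ≠ 2) {a b : ZMod p} (ha : a ≠ 0) (hb : b ≠ 0) {r : ℕ} (hr : r ≠ 0)
    (h1 : 2 * p < (p ^ r).sqrt) :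
    (p ^ r - 30 * p * (p ^ r).sqrt : ℤ) ≤ p * (univ.filter fun x : GaloisField p r => x ≠ 0 ∧
      a * Algebra.trace (ZMod p) _ x + b * Algebra.trace (ZMod p) _ x⁻¹ = 0).card := by
  have hp := (Fact.out : p.Prime)
  have hp3 : 2 < p := lt_of_le_of_ne hp.two_le hp2.symm
  have hchar : ringChar (GaloisField p r) ≠ 2 := by rw [ringChar.eq _ p]; exact hp2
  have h2 : (2 : GaloisField p r) ≠ 0 := Ring.two_ne_zero hchar
  set A := algebraMap (ZMod p) (GaloisField p r) a with hA
  set B := algebraMap (ZMod p) (GaloisField p r) b with hB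
  have hA0 : A ≠ 0 := (_root_.map_ne_zero _).2 ha
  have hB0 : B ≠ 0 := (_root_.map_ne_zero _).2 hb
  have hd : (X ^ p - X : (GaloisField p r)[X]).natDegree = p :=
    FiniteField.X_pow_card_sub_X_natDegree_eq _ hp.one_lt
  have hg : ((X ^ p - X) ^ 2 - C (4 * A * B) : (GaloisField p r)[X]).natDegree = 2 * p := by
    rw [natDegree_sub_C, natDegree_pow, hd]
  have hW := quadChar_sum_ge (card_gf hr) (Nat.odd_iff.1 (hp.odd_of_ne_two hp2).pow)
    (f := (X ^ p - X) ^ 2 - C (4 * A * B)) (by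
      have h4 : (4 * A * B) ≠ 0 := by
        rw [show (4 : GaloisField p r) = 2 * 2 by norm_num]; simp [h2, hA0, hB0]
      have e : derivative ((X ^ p - X) ^ 2 - C (4 * A * B) : (GaloisField p r)[X]) =
          -C 2 * (X ^ p - X) := by
        simp [derivative_pow, map_ofNat]
      refine ⟨-C (4 * A * B)⁻¹, -C (4 * A * B)⁻¹ * C 2⁻¹ * (X ^ p - X), ?_⟩
      have e1 : C (4 * A * B)⁻¹ * C (4 * A * B) = 1 := by rw [← C_mul, inv_mul_cancel₀ h4, C_1]
      have e2 : C (2 : GaloisField p r)⁻¹ * C 2 = 1 := by rw [← C_mul, inv_mul_cancel₀ h2, C_1]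
      rw [e]
      linear_combination e1 + C (4 * A * B)⁻¹ * (X ^ p - X) ^ 2 * e2)
    (by omega) (by omega) (by omega)
  simp only [hg, eval_sub, eval_pow, eval_X, eval_C] at hW
  have s1 : ∀ y : GaloisField p r, quadraticChar _ ((y ^ p - y) ^ 2 - 4 * A * B) + 1 ≤
      ∑ x : GaloisField p r, if x ≠ 0 ∧ y ^ p - y = A * x + B * x⁻¹ then (1 : ℤ) else 0 := by
    intro y
    rw [← quadraticChar_card_sqrts hchar, Finset.sum_boole, Nat.cast_le]
    refine card_le_card_of_injOn (fun z => (z + (y ^ p - y)) / (2 * A)) (fun z hz => ?_)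
      fun z _ z' _ h => add_right_cancel ((div_left_inj' (mul_ne_zero h2 hA0)).1 h)
    simp only [Set.coe_toFinset, Set.mem_ofPred_eq] at hz
    have e : A * ((z + (y ^ p - y)) / (2 * A)) ^ 2 + B =
        (y ^ p - y) * ((z + (y ^ p - y)) / (2 * A)) := by
      field_simp
      linear_combination hz
    simp only [coe_filter, mem_univ, true_and, Set.mem_ofPred_eq]
    generalize (z + (y ^ p - y)) / (2 * A) = x at e
    have hx : x ≠ 0 := by rintro rfl; simp [hB0] at e
    refine ⟨hx, ?_⟩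
    field_simp
    linear_combination -e
  have s2 : ∀ x : GaloisField p r,
      (∑ y : GaloisField p r, if x ≠ 0 ∧ y ^ p - y = A * x + B * x⁻¹ then (1 : ℤ) else 0) ≤
      p * if x ≠ 0 ∧ a * Algebra.trace (ZMod p) _ x + b * Algebra.trace (ZMod p) _ x⁻¹ = 0
        then 1 else 0 := by
    intro x
    rw [Finset.sum_boole]
    split_ifs with h
    · have hd' : (X ^ p - X - C (A * x + B * x⁻¹)).natDegree = p := by rw [natDegree_sub_C, hd]
      rw [mul_one, Nat.cast_le]
      refine le_trans (card_le_degree_of_subset_roots fun y hy => ?_) hd'.le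
      refine (mem_roots fun h0 => ?_).2 ?_
      · rw [h0, natDegree_zero] at hd'; omega
      · simp [(mem_filter.1 hy).2.2]
    · rw [mul_zero, filter_eq_empty_iff.2, card_empty, Nat.cast_zero]
      refine fun y _ hy => h ⟨hy.1, ?_⟩
      have h3 := congrArg (Algebra.trace (ZMod p) _) hy.2
      have h4 := Algebra.trace_eq_of_algEquiv
        (FiniteField.frobeniusAlgEquivOfAlgebraic (ZMod p) (GaloisField p r)) y
      rw [FiniteField.coe_frobeniusAlgEquivOfAlgebraic, ZMod.card] at h4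
      rw [map_sub, h4, sub_self, hA, hB, ← Algebra.smul_def, ← Algebra.smul_def] at h3
      simpa using h3.symm
  have s3 := (Finset.sum_le_sum fun y (_ : y ∈ univ) => s1 y).trans
    (Finset.sum_comm.trans_le (Finset.sum_le_sum fun x _ => s2 x))
  rw [← Finset.mul_sum, Finset.sum_boole, Finset.sum_add_distrib, sum_const, card_univ,
    card_gf hr] at s3
  push_cast at hW
  simp only [nsmul_eq_mul, mul_one, Nat.cast_pow] at s3
  linarith

lemma sum_pw_le (hp2 : p ≠ 2) {a b : ZMod p} (ha : a ≠ 0) (hb : b ≠ 0) {r : ℕ} (hr : r ≠ 0)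
    (h1 : 2 * p < (p ^ r).sqrt) :
    ∑ c ∈ univ.erase (0 : ZMod p), pw p (-(kl (c * a) (c * b)).re) r ≤ 30 * p * (p ^ r).sqrt := by
  classical
  have h2 := card_trace_zero hp2 ha hb hr h1
  set N := (univ.filter fun x : GaloisField p r => x ≠ 0 ∧
      a * Algebra.trace (ZMod p) _ x + b * Algebra.trace (ZMod p) _ x⁻¹ = 0).card with hN
  have e1 : ∀ (c : ZMod p) (x : GaloisField p r), eta (c * a) (c * b) (cp (ZMod p) x) =
      if x = 0 then 0 else ZMod.stdAddChar
        (c * (a * Algebra.trace (ZMod p) _ x + b * Algebra.trace (ZMod p) _ x⁻¹)) := fun c x => by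
    split_ifs with h
    · rw [h, eta, if_pos (cp_zero _)]
    · rw [eta, if_neg (cp_coeff_zero _ h), trace_cp, trace_inv_cp _ h]; congr 1; ring
  have e2 : ∑ c : ZMod p, ∑ x : GaloisField p r, eta (c * a) (c * b) (cp (ZMod p) x) = p * N := by
    rw [Finset.sum_comm, hN, ← Finset.sum_boole, Finset.mul_sum]
    refine Finset.sum_congr rfl fun x _ => ?_
    by_cases h : x = 0
    · simp [e1, h]
    · simp only [e1, h, if_false, AddChar.sum_mulShift _ (ZMod.isPrimitive_stdAddChar p)]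
      simp [h]
  have e3 : ∑ x : GaloisField p r, eta (0 * a) (0 * b) (cp (ZMod p) x) = p ^ r - 1 := by
    simp only [e1]
    simp only [zero_mul, AddChar.map_zero_eq_one]
    rw [← Finset.add_sum_erase _ _ (mem_univ 0), if_pos rfl, zero_add,
      Finset.sum_congr rfl fun x hx => if_neg (ne_of_mem_erase hx), sum_const,
      card_erase_of_mem (mem_univ _), card_univ, card_gf hr, nsmul_eq_mul, mul_one,
      Nat.cast_pred (pow_pos (Fact.out : p.Prime).pos r), Nat.cast_pow]
  obtain ⟨r, rfl⟩ := Nat.exists_eq_succ_of_ne_zero hr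
  rw [← Finset.add_sum_erase _ _ (mem_univ 0), e3, Finset.sum_congr rfl fun c hc =>
    sum_cp (mul_ne_zero (ne_of_mem_erase hc) ha) (mul_ne_zero (ne_of_mem_erase hc) hb) r,
    Finset.sum_neg_distrib] at e2
  have e4 : ((p : ℝ) ^ (r + 1) - 1 + -∑ c ∈ univ.erase (0 : ZMod p),
      pw p (-(kl (c * a) (c * b)).re) (r + 1)) = p * N := by exact_mod_cast e2
  have h3 : (p ^ (r + 1) - 30 * p * (p ^ (r + 1)).sqrt : ℝ) ≤ p * N := by exact_mod_cast h2
  simp only [Nat.succ_eq_add_one]
  linarith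

lemma kl_sq_le (hp2 : p ≠ 2) {a b : ZMod p} (ha : a ≠ 0) (hb : b ≠ 0) :
    (kl a b).re ^ 2 ≤ 4 * p := by
  have hp := (Fact.out : p.Prime)
  have hp0 : (0 : ℝ) < p := by exact_mod_cast hp.pos
  by_contra! h
  obtain ⟨γ, hγ, h1⟩ := pw_big (t := -(kl a b).re) (n := p) (by rwa [neg_sq])
  obtain ⟨k, hk, hk3⟩ := (((tendsto_pow_atTop_atTop_of_one_lt
    ((one_lt_div hp0).2 hγ)).eventually_gt_atTop (32 * p)).and (Filter.eventually_ge_atTop 3)).exists
  have hs : (p ^ (2 * k)).sqrt = p ^ k := by rw [pow_mul', Nat.sqrt_eq']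
  have h2 := sum_pw_le hp2 ha hb (r := 2 * k) (by omega) (by
    rw [hs]
    have := Nat.pow_le_pow_right hp.pos hk3
    have := hp.two_le
    nlinarith [Nat.mul_le_mul this this])
  have h10 : (1 : ZMod p) ∈ univ.erase 0 := by simp
  rw [hs, ← Finset.add_sum_erase _ _ h10, one_mul, one_mul] at h2
  have h3 := Finset.card_nsmul_le_sum ((univ.erase (0 : ZMod p)).erase 1) _ _
    fun c _ => pw_ge hp0 (-(kl (c * a) (c * b)).re) k
  have h4 : (((univ.erase (0 : ZMod p)).erase 1).card : ℝ) ≤ p := by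
    exact_mod_cast (card_le_univ _).trans (ZMod.card p).le
  have h5 : (0 : ℝ) < p ^ k := by positivity
  rw [div_pow, lt_div_iff₀ h5] at hk
  rw [nsmul_eq_mul] at h3
  push_cast at h2
  nlinarith [h1 k]

/-- The Weil bound for Kloosterman sums. -/
theorem kloosterman_le (p : ℕ) [Fact p.Prime] (a b : ZMod p) (ha : a ≠ 0) (hb : b ≠ 0) :
    ‖∑ x : (ZMod p)ˣ, ZMod.stdAddChar (a * (x : ZMod p) + b * ((x⁻¹ : (ZMod p)ˣ) : ZMod p))‖ ≤
      2 * √p := by
  rcases eq_or_ne p 2 with rfl | hp2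
  · refine (norm_sum_le _ _).trans ?_
    simp only [AddChar.norm_apply, sum_const, card_univ, ZMod.card_units, nsmul_eq_mul]
    have : (1 : ℝ) ≤ √2 := Real.one_le_sqrt.2 (by norm_num)
    norm_num
    linarith
  have e : ∑ x : (ZMod p)ˣ, ZMod.stdAddChar (a * (x : ZMod p) + b * ((x⁻¹ : (ZMod p)ˣ) : ZMod p)) =
      kl a b := by
    rw [kl, ← Finset.add_sum_erase _ _ (mem_univ (0 : ZMod p)), if_pos rfl, zero_add]
    refine Finset.sum_bij (fun x _ => (x : ZMod p)) (fun x _ => by simp)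
      (fun _ _ _ _ h => Units.ext h)
      (fun x hx => ⟨Units.mk0 x (ne_of_mem_erase hx), mem_univ _, rfl⟩) fun x _ => by
        rw [if_neg x.ne_zero, Units.val_inv_eq_inv_val]
  rw [e, kl_im, Complex.norm_real, Real.norm_eq_abs]
  refine abs_le_of_sq_le_sq' ?_ (by positivity) |> abs_le.2
  rw [mul_pow, Real.sq_sqrt p.cast_nonneg]
  linarith [kl_sq_le hp2 ha hb]

end Pool.Agent.Shared.Weil
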